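import Pool.Agent.Work.MP_8b6acb_ti_helper76.SetFinal

/-!
# Averages over the paths whose last object is a vertex (helper3)

`CE`: the average of a function of `(V_K, prefix order)` over the paths whose last object is the
vertex `V_K`, as a sum over the vertices.
-/

namespace R5

namespace J0

open Finset T7 Two

variable {α : Type} [DecidableEq α]

/-- all sets `V ∪ prefix` except `V` have label `B` -/
def goodB1 (τ : Finset α → Lab) (V : Finset α) (π : List α) : Prop :=
  ∀ i ∈ Icc 1 π.length, τ (V ∪ pre π i) = Lab.B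

instance (τ : Finset α → Lab) (V : Finset α) (π : List α) : Decidable (goodB1 τ V π) := by
  unfold goodB1; infer_instance

theorem allB_append1 {τ : Finset α → Lab} {π1 π2 : List α} :
    allB τ (π1 ++ π2) (π1.length + 1) ↔ goodB1 τ π1.toFinset π2 := by
  unfold allB goodB1
  constructor
  · intro h i hi
    rw [mem_Icc] at hi
    have := h (π1.length + i) (by rw [mem_Icc, List.length_append]; omega)
    rwa [pre_append_add] at this
  · intro h k hk
    rw [mem_Icc, List.length_append] at hk
    obtain ⟨i, rfl⟩ := Nat.exists_eq_add_of_le (show π1.length ≤ k by omega)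
    rw [pre_append_add]
    exact h i (by rw [mem_Icc]; omega)

theorem goodB1_cons {τ : Finset α → Lab} {V : Finset α} {g : α} {π : List α} :
    goodB1 τ V (g :: π) ↔ goodB τ (insert g V) π := by
  unfold goodB1 goodB
  rw [List.length_cons]
  constructor
  · intro h i hi
    rw [mem_range] at hi
    have := h (i + 1) (by rw [mem_Icc]; omega)
    rw [pre_cons_succ] at this
    rwa [insert_union, ← union_insert]
  · intro h i hi
    rw [mem_Icc] at hi
    obtain ⟨j, rfl⟩ : ∃ j, i = j + 1 := ⟨i - 1, by omega⟩
    rw [pre_cons_succ, union_insert, ← insert_union]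
    exact h j (by rw [mem_range]; omega)

/-- `bwb` as an average -/
theorem bwb_eq_Av (τ : Finset α → Lab) {D V : Finset α} (hV : V ⊆ D) (hne : (D \ V).Nonempty) :
    bwb τ D V = Av (D \ V) (fun π => if goodB1 τ V π then 1 else 0) := by
  rw [Av_cons hne]
  unfold bwb
  congr 1
  refine sum_congr rfl fun g hg => ?_
  rw [mem_sdiff] at hg
  rw [bw_eq_Av τ (insert g V) (insert_subset hg.1 hV), sdiff_erase_eq]
  refine Av_congr fun π _ => ?_
  rw [if_congr goodB1_cons rfl rfl]

/-- chains of `B`-sets, one level above the base -/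
theorem chain_B1 (τ : Finset α → Lab) {D : Finset α} {j : ℕ} (hj : j < D.card)
    (h : Finset α → List α → ℝ) :
    ∑ V ∈ powersetCard j D, bwb τ D V / (D.card.choose j : ℝ) * Av V (h V) =
      Av D (fun π => if allB τ π (j + 1) then h (pre π j) (π.take j) else 0) := by
  have e : Av D (fun π => if allB τ π (j + 1) then h (pre π j) (π.take j) else 0) =
      Av D (fun π => (fun (π1 π2 : List α) => if goodB1 τ π1.toFinset π2 then
        h π1.toFinset π1 else 0) (π.take j) (π.drop j)) := by
    refine Av_congr fun π hπ => ?_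
    have hl : (π.take j).length = j := by
      rw [List.length_take, length_of_mem hπ, min_eq_left hj.le]
    have h1 := allB_append1 (τ := τ) (π1 := π.take j) (π2 := π.drop j)
    rw [List.take_append_drop, hl] at h1
    simp only [h1]
    rfl
  rw [e, Av_take_drop hj.le (fun (π1 π2 : List α) => if goodB1 τ π1.toFinset π2 then
        h π1.toFinset π1 else 0), sum_div]
  refine sum_congr rfl fun V hV => ?_
  obtain ⟨hV1, hV2⟩ := mem_powersetCard.1 hV
  have hne : (D \ V).Nonempty := by
    rw [← card_pos, card_sdiff_of_subset hV1, hV2]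
    omega
  rw [bwb_eq_Av τ hV1 hne, div_mul_eq_mul_div, ← Av_mul]
  congr 1
  refine Av_congr fun π1 h1 => ?_
  simp only [(mem_seqs_card.1 h1).2]
  rw [← Av_mul_right]
  refine Av_congr fun π2 _ => ?_
  split_ifs <;> simp

/-- `V_K` is a vertex -/
theorem lx_one {τ : Finset α → Lab} {D : Finset α} {π : List α} (h0 : τ ∅ = Lab.A)
    (hD : τ D = Lab.B) (hπ : π ∈ seqs D.card D) :
    lx τ π = if τ (pre π (kN τ π)) = Lab.X then 1 else 0 := by
  have h0' : τ ∅ ≠ Lab.B := by rw [h0]; decide
  have h1 := lab_kN h0' hD hπ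
  unfold lx
  rcases h2 : τ (pre π (kN τ π)) with _ | _ | _
  · simp
  · exact absurd h2 h1
  · simp

/-- a path functional of `V_K` and the prefix order, as a sum over the levels -/
theorem lx_levels {τ : Finset α → Lab} {D : Finset α} {π : List α} (h0 : τ ∅ = Lab.A)
    (hD : τ D = Lab.B) (hπ : π ∈ seqs D.card D) (F : Finset α → List α → ℝ) :
    lx τ π * F (pre π (kN τ π)) (π.take (kN τ π)) = ∑ j ∈ range D.card,
      (if allB τ π (j + 1) then
        (fun (V : Finset α) (π1 : List α) => if τ V = Lab.X then F V π1 else 0)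
          (pre π j) (π.take j) else 0) := by
  have h0' : τ ∅ ≠ Lab.B := by rw [h0]; decide
  have hN := kN_lt h0' hD hπ
  rw [lx_one h0 hD hπ, sum_eq_single (kN τ π)]
  · rw [if_pos ((allB_iff h0' hD hπ _).2 (Nat.lt_succ_self _))]
    by_cases hX : τ (pre π (kN τ π)) = Lab.X
    · simp only [if_pos hX, one_mul]
    · simp only [if_neg hX, zero_mul]
  · intro j hj hne
    rw [mem_range] at hj
    by_cases hB : allB τ π (j + 1)
    · rw [if_pos hB]
      have h1 := (allB_iff h0' hD hπ _).1 hB
      have h2 : allB τ π j := (allB_iff h0' hD hπ _).2 (by omega)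
      have h3 : τ (pre π j) = Lab.B := h2 j (by rw [mem_Icc, length_of_mem hπ]; omega)
      have h4 : τ (pre π j) ≠ Lab.X := by rw [h3]; decide
      simp only [if_neg h4]
    · rw [if_neg hB]
  · intro h
    exact absurd (mem_range.2 hN) h

/-- **conditional expectations at the last vertex** -/
theorem CE {τ : Finset α → Lab} {D : Finset α} (h0 : τ ∅ = Lab.A) (hD : τ D = Lab.B)
    (F : Finset α → List α → ℝ) :
    Av D (fun π => lx τ π * F (pre π (kN τ π)) (π.take (kN τ π))) =
      ∑ V ∈ D.powerset, if τ V = Lab.X then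
        bwb τ D V / (D.card.choose V.card : ℝ) * Av V (F V) else 0 := by
  rw [Av_congr fun π hπ => lx_levels h0 hD hπ F, Av_sum]
  have e : ∑ V ∈ D.powerset, (if τ V = Lab.X then
        bwb τ D V / (D.card.choose V.card : ℝ) * Av V (F V) else 0) =
      ∑ j ∈ range D.card, ∑ V ∈ powersetCard j D, (if τ V = Lab.X then
        bwb τ D V / (D.card.choose V.card : ℝ) * Av V (F V) else 0) := by
    rw [sum_powerset, sum_range_succ]
    have : ∑ U ∈ powersetCard D.card D, (if τ U = Lab.X then
        bwb τ D U / (D.card.choose U.card : ℝ) * Av U (F U) else 0) = 0 := by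
      refine sum_eq_zero fun U hU => ?_
      obtain ⟨h1, h2⟩ := mem_powersetCard.1 hU
      have : U = D := eq_of_subset_of_card_le h1 (le_of_eq h2.symm)
      rw [this, hD, if_neg (by decide)]
    rw [this, add_zero]
  rw [e]
  refine sum_congr rfl fun j hj => ?_
  rw [mem_range] at hj
  rw [← chain_B1 τ hj (fun (V : Finset α) (π1 : List α) => if τ V = Lab.X then F V π1 else 0)]
  refine sum_congr rfl fun V hV => ?_
  obtain ⟨-, hc⟩ := mem_powersetCard.1 hV
  rw [hc]
  by_cases hX : τ V = Lab.X
  · simp only [if_pos hX]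
  · simp only [if_neg hX, Av_zero, mul_zero]

end J0

end R5
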