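import Pool.Agent.Work.MP_8b6acb_j0_helper3.PV
import Pool.Agent.Work.MP_8b6acb_j0_helper25.HW1
import Pool.Agent.Work.MP_8b6acb_j0_helper77.J00
import Pool.Agent.Work.MP_8b6acb_j0_helper88.S1
import Pool.Agent.Work.MP_8b6acb_ts_helper77.Asm
import Pool.Agent.Work.MP_8b6acb_ti_helper76.TISasm

/-!
# No light element at the top: the assembly (helper3)
-/

namespace R5

namespace J0

open Finset T7 Two COSTB

variable {α : Type} [DecidableEq α]

section path

variable {τ : Finset α → Lab} {D : Finset α} {π : List α}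

theorem kA_take (h0 : τ ∅ = Lab.A) (hD : τ D = Lab.B) (hπ : π ∈ seqs D.card D)
    (hx : τ (pre π (kN τ π)) ≠ Lab.A) : kA τ (π.take (kN τ π)) = kA τ π := by
  have hD' : τ D ≠ Lab.A := by rw [hD]; decide
  have h0' : τ ∅ ≠ Lab.B := by rw [h0]; decide
  have hN := kN_lt h0' hD hπ
  have hkK := lt_of_lx h0 hD hπ hx
  have hm := take_mem hπ (kN τ π)
  have hc : (pre π (kN τ π)).card = kN τ π := card_pre_of_mem hπ hN.le
  have h1 := kA_lt h0 hx hm
  rw [hc] at h1
  apply le_antisymm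
  · have h2 := (allA_iff h0 hx hm _).2 le_rfl
    rw [allA_take h1.le] at h2
    exact (allA_iff h0 hD' hπ _).1 h2
  · rw [← allA_iff h0 hx hm, allA_take hkK.le]
    exact (allA_iff h0 hD' hπ _).2 le_rfl

theorem bx_take (h0 : τ ∅ = Lab.A) (hD : τ D = Lab.B) (hπ : π ∈ seqs D.card D)
    (hx : τ (pre π (kN τ π)) ≠ Lab.A) :
    bx τ (π.take (kN τ π)) = ((kA τ π : ℝ) + 1) * (1 - iE τ π (kA τ π)) := by
  have hD' : τ D ≠ Lab.A := by rw [hD]; decide
  have hkK := lt_of_lx h0 hD hπ hx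
  have h1 := lab_kA h0 hD' hπ
  have h2 := (allA_iff h0 hD' hπ (kA τ π)).2 le_rfl
  unfold bx
  rw [kA_take h0 hD hπ hx, pre_take (by omega : kA τ π + 1 ≤ kN τ π)]
  rcases h3 : τ (pre π (kA τ π + 1)) with _ | _ | _
  · exact absurd h3 h1
  · rw [iE_pos ⟨h2, h3⟩]
    simp
  · rw [iE_neg]
    · simp
    · intro h
      rw [h.2] at h3
      exact absurd h3 (by decide)

theorem lt1_take {j : ℕ} (hj : 1 ≤ j) : lt1 τ (π.take j) = lt1 τ π := by
  unfold lt1
  rw [pre_take hj]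

theorem AL_empty (τ : Finset α → Lab) (V : Finset α) : AL τ V ∅ = LV τ V := by
  unfold AL LV
  ext x
  simp

theorem pn_zero (τ : Finset α → Lab) (π : List α) :
    pn τ π 0 = (LV τ (pre π (kN τ π))).card := by
  unfold pn
  rw [pre_zero, AL_empty]

theorem an_zero (τ : Finset α → Lab) (D : Finset α) (π : List α) :
    an τ D π 0 = (LV τ D).card := by
  unfold an
  rw [pre_zero, AL_empty]

theorem on_zero (hπ : π ∈ seqs D.card D) :
    on τ D π 0 = ((LV τ (D \ pre π (kN τ π))).card : ℝ) := by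
  unfold on
  rw [pn_zero, an_zero, ← LV_add (τ := τ) (pre_subset_of_mem hπ (kN τ π))]
  push_cast
  ring

/-- the lights outside `V_K` -/
theorem on_le (h0 : τ ∅ = Lab.A) (hD : τ D = Lab.B) (hπ : π ∈ seqs D.card D) (i : ℕ) :
    on τ D π i ≤ (D.card : ℝ) - kN τ π := by
  have h3 := out_le h0 hD hπ i
  have h2 := pn_le_an (τ := τ) hπ i
  unfold on
  rw [← Nat.cast_sub h2]
  have : (kN τ π : ℝ) + ((an τ D π i - pn τ π i : ℕ) : ℝ) ≤ D.card := by exact_mod_cast h3
  linarith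

theorem on_nonneg (hπ : π ∈ seqs D.card D) (i : ℕ) : 0 ≤ on τ D π i := by
  have h2 := pn_le_an (τ := τ) hπ i
  unfold on
  rw [sub_nonneg]
  exact_mod_cast h2

theorem v1_nonneg (h0 : τ ∅ = Lab.A) (hD : τ D = Lab.B) (hπ : π ∈ seqs D.card D) (i : ℕ) :
    0 ≤ v1 τ D π i := by
  unfold v1
  split_ifs
  · exact le_rfl
  · exact zero_le_one
  · have h1 := on_le h0 hD hπ i
    have h2 := on_nonneg (τ := τ) hπ i
    have h3 : (0 : ℝ) ≤ pn τ π i := Nat.cast_nonneg _
    have := mul_nonneg h3 (sub_nonneg.2 h1)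
    linarith

/-- the first exit is a light element: then the exit is a live light at level `0` -/
theorem lv_of_lt1 (h0 : τ ∅ = Lab.A) (hD : τ D = Lab.B) (hπ : π ∈ seqs D.card D)
    (h : lt1 τ π = 1) : kA τ π = 0 ∧ lv τ D π = 1 := by
  have hD' : τ D ≠ Lab.A := by rw [hD]; decide
  obtain ⟨h1, -⟩ := lt1_kA h0 hD' hπ h
  have h2 : τ (pre π 1) = Lab.B := by
    unfold lt1 at h
    by_contra hc
    rw [if_neg hc] at h
    exact zero_ne_one h
  refine ⟨h1, ?_⟩
  have hk := kA_lt h0 hD' hπ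
  obtain ⟨x, hx⟩ := Blk.nx_single hπ hk
  unfold lv
  rw [hx]
  rw [h1] at hx ⊢
  have hxm : x ∈ nx π 0 := by rw [hx]; exact mem_singleton_self x
  have h3 := Blk.insert_nx hπ (by omega : 0 < D.card) hxm
  rw [pre_zero] at h3
  have h4 : τ {x} = Lab.B := by
    rw [← h2, show (1 : ℕ) = 0 + 1 from rfl, ← h3]
    rfl
  have h5 := Blk.mem_nx.1 hxm
  rw [pre_zero, AL_empty, singleton_inter_of_mem]
  · simp
  · unfold LV
    rw [mem_filter]
    exact ⟨pre_subset_of_mem hπ _ h5.1, h4⟩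

/-- the surplus of the levels on the paths with a vertex at `V_K` -/
theorem sum_v1 (h0 : τ ∅ = Lab.A) (hD : τ D = Lab.B) (hπ : π ∈ seqs D.card D)
    (hx : τ (pre π (kN τ π)) ≠ Lab.A) (h : lt1 τ π = 0) :
    v1 τ D π 0 + ((D.card : ℝ) - kN τ π) * lv τ D π ≤
      ∑ i ∈ range (kA τ π + 1), v1 τ D π i := by
  have hD' : τ D ≠ Lab.A := by rw [hD]; decide
  have hk := kA_lt h0 hD' hπ
  have hkK := lt_of_lx h0 hD hπ hx
  rcases nx_cases hπ hk (AL τ D (pre π (kA τ π))) with h1 | h1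
  · have h2 : lv τ D π = 0 := h1
    rw [h2, mul_zero, add_zero]
    exact single_le_sum (fun i _ => v1_nonneg h0 hD hπ i) (mem_range.2 (Nat.succ_pos _))
  · have h2 : lv τ D π = 1 := h1
    -- the exit is a live light
    obtain ⟨x, hxx⟩ := Blk.nx_single hπ hk
    have hxA : x ∈ AL τ D (pre π (kA τ π)) := by
      by_contra hc
      unfold lv at h2
      rw [hxx, singleton_inter_of_notMem hc] at h2
      simp at h2
    have hxm : x ∈ nx π (kA τ π) := by rw [hxx]; exact mem_singleton_self x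
    have h5 := Blk.mem_nx.1 hxm
    have hk1 : 1 ≤ kA τ π := by
      by_contra hc
      have hk0 : kA τ π = 0 := by omega
      have hins := Blk.insert_nx hπ hk hxm
      rw [hk0] at hins
      rw [pre_zero] at hins
      have h6 : τ (pre π 1) = Lab.B := by
        rw [show (1 : ℕ) = 0 + 1 from rfl, ← hins]
        unfold AL at hxA
        exact (mem_filter.1 hxA).2.1
      unfold lt1 at h
      rw [if_pos h6] at h
      exact one_ne_zero h
    have hpn : 1 ≤ pn τ π (kA τ π) := by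
      rw [pn_eq hπ]
      apply card_pos.2
      refine ⟨x, ?_⟩
      rw [mem_inter, mem_sdiff]
      exact ⟨⟨pre_mono (by omega : kA τ π + 1 ≤ kN τ π) h5.1, h5.2⟩, hxA⟩
    have hv : (D.card : ℝ) - kN τ π ≤ v1 τ D π (kA τ π) := by
      rw [v1_lv hx]
      have h7 := on_le h0 hD hπ (kA τ π)
      have h8 : (1 : ℝ) ≤ pn τ π (kA τ π) := by exact_mod_cast hpn
      have h9 : 0 ≤ ((pn τ π (kA τ π) : ℝ) - 1) *
          (((D.card : ℝ) - kN τ π) - on τ D π (kA τ π)) :=
        mul_nonneg (by linarith) (by linarith)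
      linarith
    rw [h2, mul_one, sum_range_succ]
    have h10 : v1 τ D π 0 ≤ ∑ i ∈ range (kA τ π), v1 τ D π i :=
      single_le_sum (f := fun i => v1 τ D π i) (fun i _ => v1_nonneg h0 hD hπ i)
        (mem_range.2 hk1)
    linarith

/-- **the paths with a vertex at `V_K`** -/
theorem point_lv (h0 : τ ∅ = Lab.A) (hD : τ D = Lab.B) (hπ : π ∈ seqs D.card D)
    (hx : τ (pre π (kN τ π)) ≠ Lab.A) :
    FF τ D (pre π (kN τ π)) (π.take (kN τ π)) ≤
      lamn D.card * (∑ i ∈ range (kA τ π + 1), v1 τ D π i -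
        ((D.card : ℝ) - kN τ π) * lv τ D π) -
      (((kA τ π : ℝ) + 1) * (1 - iE τ π (kA τ π)) + ((D.card : ℝ) - kN τ π)) /
        (D.card : ℝ) ^ 2 := by
  have h0' : τ ∅ ≠ Lab.B := by rw [h0]; decide
  have hN := kN_lt h0' hD hπ
  have hkK := lt_of_lx h0 hD hπ hx
  have hc : (pre π (kN τ π)).card = kN τ π := card_pre_of_mem hπ hN.le
  have hlam := Two.lamn_nonneg D.card
  have hv0 := v1_lv (D := D) hx 0
  unfold FF
  rw [hc, bx_take h0 hD hπ hx, lt1_take (by omega : 1 ≤ kN τ π), ← pn_zero,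
    ← on_zero hπ]
  have key : lt1 τ π * (((pn τ π 0 : ℝ) - 1) * (((D.card : ℝ) - kN τ π) - on τ D π 0)) +
      (1 - lt1 τ π) * ((pn τ π 0 : ℝ) * (((D.card : ℝ) - kN τ π) - on τ D π 0) +
        on τ D π 0) ≤
      ∑ i ∈ range (kA τ π + 1), v1 τ D π i - ((D.card : ℝ) - kN τ π) * lv τ D π := by
    rcases lt1_cases τ π with h | h
    · have h1 := sum_v1 h0 hD hπ hx h
      rw [h]
      linarith
    · obtain ⟨h2, h3⟩ := lv_of_lt1 h0 hD hπ h
      rw [h, h3, h2, zero_add, sum_range_one, hv0]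
      linarith
  have := mul_le_mul_of_nonneg_left key hlam
  have e : (((D.card : ℝ) - kN τ π) + ((kA τ π : ℝ) + 1) * (1 - iE τ π (kA τ π))) /
      (D.card : ℝ) ^ 2 = (((kA τ π : ℝ) + 1) * (1 - iE τ π (kA τ π)) +
        ((D.card : ℝ) - kN τ π)) / (D.card : ℝ) ^ 2 := by ring
  rw [e]
  linarith

/-- the pointwise inequality of the assembly -/
theorem point_all (h0 : τ ∅ = Lab.A) (hD : τ D = Lab.B) (hl : 2 ≤ D.card)
    (hJ : 1 ≤ (LV τ D).card) (hπ : π ∈ seqs D.card D) :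
    lx τ π * FF τ D (pre π (kN τ π)) (π.take (kN τ π)) ≤
      lamn D.card * LB τ D (v1 τ D) π +
        lamn D.card * (((D.card : ℝ) - kN τ π - 1) * lv τ D π * (1 - lx τ π)) -
      (((kA τ π : ℝ) + 1) * (1 - iE τ π (kA τ π)) + ((D.card : ℝ) - kN τ π) * lx τ π) /
        (D.card : ℝ) ^ 2 := by
  have hD' : τ D ≠ Lab.A := by rw [hD]; decide
  have h0' : τ ∅ ≠ Lab.B := by rw [h0]; decide
  have hk := kA_lt h0 hD' hπ
  have hN := kN_lt h0' hD hπ
  have hAN := kA_le_kN h0 hD hπ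
  have hlam := Two.lamn_nonneg D.card
  have hlam1 := lamn_ge hl
  have hw : (1 : ℝ) ≤ (D.card : ℝ) - kN τ π := by
    have : (kN τ π : ℝ) + 1 ≤ D.card := by exact_mod_cast hN
    linarith
  have hr : (0 : ℝ) ≤ (kN τ π : ℝ) - kA τ π := by
    have : (kA τ π : ℝ) ≤ kN τ π := by exact_mod_cast hAN
    linarith
  have hnl := nl_nonneg τ D π
  have hn0 : (0 : ℝ) ≤ n00 τ D π := Nat.cast_nonneg _
  have hiE := iE_nonneg τ π (kA τ π)
  -- the extra terms of `LB`
  have hLB : ∑ i ∈ range (kA τ π + 1), v1 τ D π i - ((D.card : ℝ) - kN τ π) * lv τ D π ≤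
      LB τ D (v1 τ D) π := by
    unfold LB
    have h1 : 0 ≤ ((kN τ π : ℝ) - kA τ π) * ((D.card : ℝ) - kN τ π) * nl τ D π := by
      have : 0 ≤ (D.card : ℝ) - kN τ π := by linarith
      positivity
    have h2 : 0 ≤ ((D.card : ℝ) - kN τ π) * n00 τ D π * iE τ π (kA τ π) := by
      have : 0 ≤ (D.card : ℝ) - kN τ π := by linarith
      positivity
    linarith
  have hLB' := mul_le_mul_of_nonneg_left hLB hlam
  by_cases hx : τ (pre π (kN τ π)) = Lab.A
  · -- the last object is an edge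
    have hlx : lx τ π = 0 := by unfold lx; rw [if_pos hx]
    rw [hlx]
    have hS : 1 ≤ ∑ i ∈ range (kA τ π + 1), v1 τ D π i := by
      have h1 : v1 τ D π 0 = 1 := by
        unfold v1
        rw [if_pos hx, an_zero, if_neg (by omega)]
      rw [← h1]
      exact single_le_sum (fun i _ => v1_nonneg h0 hD hπ i) (mem_range.2 (Nat.succ_pos _))
    have h1 := iE_eq h0 hD hπ
    have hlv : lv τ D π = 0 ∨ lv τ D π = 1 := nx_cases hπ hk _
    have hiE' : iE τ π (kA τ π) = 0 ∨ iE τ π (kA τ π) = 1 := by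
      unfold iE
      split_ifs
      · exact Or.inr rfl
      · exact Or.inl rfl
    rcases hlv with hlv | hlv
    · rw [hlv] at hLB' ⊢
      have h2 : lamn D.card ≤ lamn D.card * ∑ i ∈ range (kA τ π + 1), v1 τ D π i :=
        le_mul_of_one_le_right hlam hS
      have h3 : (((kA τ π : ℝ) + 1) * (1 - iE τ π (kA τ π)) + ((D.card : ℝ) - kN τ π) * 0) /
          (D.card : ℝ) ^ 2 ≤ lamn D.card := by
        have hlR : (2 : ℝ) ≤ D.card := by exact_mod_cast hl
        have h4 : 1 / (D.card : ℝ) = (D.card : ℝ) / (D.card : ℝ) ^ 2 := by field_simp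
        refine le_trans ?_ hlam1
        rw [h4]
        apply div_le_div_of_nonneg_right _ (by positivity)
        have hkR : (kA τ π : ℝ) + 1 ≤ D.card := by exact_mod_cast hk
        have hk0 : (0 : ℝ) ≤ kA τ π := Nat.cast_nonneg _
        rcases hiE' with h5 | h5 <;> rw [h5]
        · linarith
        · linarith
      linarith
    · have hnl0 : iE τ π (kA τ π) = 1 := by
        rcases hiE' with h5 | h5
        · rw [h5, hlv] at h1
          linarith
        · exact h5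
      rw [hnl0]
      rw [hlv] at hLB' ⊢
      have h2 : lamn D.card ≤ lamn D.card * ∑ i ∈ range (kA τ π + 1), v1 τ D π i :=
        le_mul_of_one_le_right hlam hS
      simp only [sub_self, mul_zero, zero_mul, add_zero, zero_div, sub_zero, mul_one]
      linarith
  · -- the last object is a vertex
    have hlx : lx τ π = 1 := by unfold lx; rw [if_neg hx]
    rw [hlx]
    have h1 := point_lv h0 hD hπ hx
    simp only [sub_self, mul_zero, mul_one, one_mul, add_zero]
    linarith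

end path

/-- the gain of the S side is the gain of the level lemma -/
theorem gS0_eq (τ : Finset α → Lab) (D L : Finset α) (π : List α) :
    K.gS0 τ D (fun U => L \ U) π = ((kA τ π : ℝ) + 1) * gL τ D L π := by
  unfold K.gS0 gL U0
  congr 1
  split_ifs
  · rw [gm_sdiff, gm_lmk]
  · rw [gm_sdiff, gm_lmk]

theorem gm_disj {D L' : Finset α} (h : Disjoint L' D) (U : Finset α) :
    gm (fun U => L' \ U) D U = 0 := by
  rw [gm_sdiff, gm_lmk]
  have : (L' \ U) ∩ (D \ U) = ∅ := by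
    rw [← disjoint_iff_inter_eq_empty]
    exact disjoint_of_subset_left sdiff_subset (disjoint_of_subset_right sdiff_subset h)
  rw [this]
  simp [gg]

theorem gT_disj {D L' : Finset α} (h : Disjoint L' D) (τ : Finset α → Lab) (π : List α) :
    K.gT τ D (fun U => L' \ U) π = 0 := by
  unfold K.gT
  rw [gm_disj h, gm_disj h]
  simp

/-- **no light element at the top, light elements at the bottom** -/
theorem J0_pos {τ : Finset α → Lab} {D L L' : Finset α} {ρ ρ' : Finset α → α → ℝ}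
    (hl : 2 ≤ D.card) (h0 : τ ∅ = Lab.A) (hD : τ D = Lab.B)
    (hL : ∀ x ∈ D, (x ∈ L ↔ τ {x} = Lab.B)) (hA : ∀ x ∈ D, τ (D.erase x) ≠ Lab.A)
    (hL' : Disjoint L' D) (hLL : L.card + L'.card + 1 ≤ D.card)
    (hρ : ∀ X ⊆ D, ∀ g ∈ D \ X, 0 < ρ X g ∧ ρ X g ≤ 1)
    (hρ' : ∀ X ⊆ D, ∀ g ∈ D \ X, 0 < ρ' X g ∧ ρ' X g ≤ 1)
    (hJ : ∃ x ∈ D, τ {x} = Lab.B) :
    0 ≤ K.VAL τ D (K.vset τ D ρ L) (K.vset (dual τ D) D ρ' L') := by
  have hJ1 : 1 ≤ (LV τ D).card := by
    obtain ⟨x, hx, hB⟩ := hJ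
    exact card_pos.2 ⟨x, mem_filter.2 ⟨hx, hB⟩⟩
  have hJl : (LV τ D).card + 1 ≤ D.card := by
    have : (LV τ D).card ≤ L.card := by
      apply card_le_card
      intro x hx
      unfold LV at hx
      rw [mem_filter] at hx
      exact (hL x hx.1).2 hx.2
    omega
  -- the two sides
  have t1 := K.T_side0_K τ D ρ' (fun U => L' \ U) h0 hD (K.StateK_of τ D ρ' hρ')
  have e1 : Av D (fun π => lowT0 τ D π + K.gT τ D (fun U => L' \ U) π) = Av D (lowT0 τ D) :=
    Av_congr fun π _ => by rw [gT_disj hL', add_zero]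
  rw [e1] at t1
  have s1 := K.S1_side_l τ D ρ (fun U => L \ U) h0 hD hA hρ
  rw [Av_add, Av_congr fun π _ => gS0_eq τ D L π] at s1
  have o1 := one_side_v1 h0 hD L hL (by omega)
  -- the cost
  have c1 := C1.cost1_V h0 hD
  have v2 := sumV h0 hD hJ1 hJl
  have p1 := Av_mono (G := D) fun π hπ => point_all (τ := τ) h0 hD hl hJ1 hπ
  rw [Av_sub, Av_add, Av_mul, Av_mul] at p1
  rw [Av_mul] at s1
  change Av D (fun π => lx τ π * FF τ D (pre π (kN τ π)) (π.take (kN τ π))) ≤
    lamn D.card * Av D (LB τ D (v1 τ D)) + _ - _ at p1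
  have hp : (0 : ℝ) < (D.card : ℝ) + 1 := by positivity
  have h3 : ((D.card : ℝ) + 1) * COST1 τ D ≤ ((D.card : ℝ) + 1) *
      (K.vset τ D ρ L + K.vset (dual τ D) D ρ' L' -
        Real.log (D.card : ℝ) * (PEL τ D + PEL (dual τ D) D)) := by
    have e : ((D.card : ℝ) + 1) * (K.vset τ D ρ L + K.vset (dual τ D) D ρ' L' -
        Real.log (D.card : ℝ) * (PEL τ D + PEL (dual τ D) D)) =
        ((D.card : ℝ) + 1) * (K.SGs τ D ρ (fun U => L \ U) -
          Real.log (D.card : ℝ) * PEL τ D) +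
        ((D.card : ℝ) + 1) * (K.SGs (dual τ D) D ρ' (fun U => L' \ U) -
          Real.log (D.card : ℝ) * PEL (dual τ D) D) := by
      unfold K.vset
      ring
    rw [e]
    linarith
  have h4 := le_of_mul_le_mul_left h3 hp
  unfold K.VAL
  linarith

/-- **no light element at the top** -/
theorem stmt_J0 (α : Type) [DecidableEq α] : Stmt_J0 α := by
  intro τ D L L' ρ ρ' hl h0 hD hL hA hL' hLL hρ hρ'
  by_cases hJ : ∃ x ∈ D, τ {x} = Lab.B
  · exact J0_pos hl h0 hD hL hA hL' hLL hρ hρ' hJ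
  · push Not at hJ
    exact Z0.J00 τ D L L' ρ ρ' hl h0 hD hL hA hL' hρ hρ' hJ

end J0

end R5
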