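import Pool.Agent.Work.MP_8b6acb_ti_helper76.LevW

/-!
# The scalar inequality at a vertex `V_K` (helper3)
-/

namespace R5

namespace J0

theorem lam_lb {l : ℕ} (hl : 2 ≤ l) : 1 / (l : ℝ) + 1 / (2 * (l : ℝ) ^ 2) ≤ lamn l := by
  have h2 : (2 : ℝ) ≤ l := by exact_mod_cast hl
  have hx0 : (0 : ℝ) < 1 / (l : ℝ) := by positivity
  have hx1 : 1 / (l : ℝ) < 1 := by
    rw [div_lt_one (by linarith)]
    linarith
  have h := Real.hasSum_pow_div_log_of_abs_lt_one (x := 1 / (l : ℝ))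
    (by rw [abs_of_pos hx0]; exact hx1)
  have h3 := sum_le_hasSum (Finset.range 2) (fun i _ => by positivity) h
  rw [Finset.sum_range_succ, Finset.sum_range_one] at h3
  have e : lamn l = -Real.log (1 - 1 / (l : ℝ)) := by
    unfold lamn
    rw [← Real.log_inv]
    congr 1
    have : (l : ℝ) ≠ 0 := by linarith
    have : (l : ℝ) - 1 ≠ 0 := by linarith
    field_simp
  rw [e]
  refine le_trans (le_of_eq ?_) h3
  norm_num
  field_simp

theorem scalW1 {K p q : ℝ} (hK : 2 ≤ K) (hp : 1 ≤ p) (hq : 1 ≤ q) (h : p + q = K) :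
    1 ≤ 3 / 2 * (q / K) + ((K + 1) * (K ^ 2 + K - 1) / (K * (K + 2) ^ 2)) * (p / K) *
      (p / K + q) := by
  have hK0 : (0 : ℝ) < K := by linarith
  set c := (K + 1) * (K ^ 2 + K - 1) / (K * (K + 2) ^ 2) with hc
  have hc0 : 0 ≤ c := by
    rw [hc]
    have : 0 ≤ K ^ 2 + K - 1 := by nlinarith
    positivity
  have hx : 2 - 1 / K ≤ p / K + q := by
    have e : p / K + q - (2 - 1 / K) = (q - 1) * (K - 1) / K := by
      field_simp
      nlinarith
    have : 0 ≤ (q - 1) * (K - 1) / K :=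
      div_nonneg (mul_nonneg (by linarith) (by linarith)) hK0.le
    linarith
  have h1 : c * (p / K) * (2 - 1 / K) ≤ c * (p / K) * (p / K + q) :=
    mul_le_mul_of_nonneg_left hx (mul_nonneg hc0 (div_nonneg (by linarith) hK0.le))
  have h2 : 0 ≤ 3 / 2 * (q / K) + c * (p / K) * (2 - 1 / K) - 1 := by
    have hE : p * (3 / 2 * K ^ 2 * (K + 2) ^ 2 - (K + 1) * (K ^ 2 + K - 1) * (2 * K - 1)) ≤
        K ^ 3 * (K + 2) ^ 2 / 2 := by
      set E := 3 / 2 * K ^ 2 * (K + 2) ^ 2 - (K + 1) * (K ^ 2 + K - 1) * (2 * K - 1) with hE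
      rcases le_total E 0 with h3 | h3
      · have : p * E ≤ 0 := mul_nonpos_of_nonneg_of_nonpos (by linarith) h3
        have : 0 ≤ K ^ 3 * (K + 2) ^ 2 / 2 := by positivity
        linarith
      · have h4 : p * E ≤ (K - 1) * E := mul_le_mul_of_nonneg_right (by linarith) h3
        have h5 : (K - 1) * E ≤ K ^ 3 * (K + 2) ^ 2 / 2 := by
          have e : K ^ 3 * (K + 2) ^ 2 / 2 - (K - 1) * E =
              K ^ 5 - 3 / 2 * K ^ 4 - 3 * K ^ 3 + 6 * K ^ 2 + 3 * K - 1 := by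
            rw [hE]; ring
          have h6 : 0 ≤ K ^ 5 - 3 / 2 * K ^ 4 - 3 * K ^ 3 + 6 * K ^ 2 + 3 * K - 1 := by
            have e2 : K ^ 5 - 3 / 2 * K ^ 4 - 3 * K ^ 3 + 6 * K ^ 2 + 3 * K - 1 =
                K ^ 2 * ((K - 2) * (K ^ 2 + K / 2 - 2) + 2) + 3 * K - 1 := by ring
            rw [e2]
            have h7 : 0 ≤ (K - 2) * (K ^ 2 + K / 2 - 2) :=
              mul_nonneg (by linarith) (by nlinarith)
            have h8 : 0 ≤ K ^ 2 * ((K - 2) * (K ^ 2 + K / 2 - 2) + 2) := by positivity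
            linarith
          linarith
        linarith
    have e : 3 / 2 * (q / K) + c * (p / K) * (2 - 1 / K) - 1 =
        (K ^ 3 * (K + 2) ^ 2 / 2 - p * (3 / 2 * K ^ 2 * (K + 2) ^ 2 -
          (K + 1) * (K ^ 2 + K - 1) * (2 * K - 1))) / (K ^ 3 * (K + 2) ^ 2) := by
      have hq' : q = K - p := by linarith
      rw [hc, hq']
      field_simp
      ring
    rw [e]
    apply div_nonneg (by linarith) (by positivity)
  linarith

/-- the lower bound of the slack term -/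
theorem Tge {k L A B P : ℝ} (hk : 1 ≤ k) (hL : k + 1 ≤ L) (hP : 0 ≤ P) (hB : 0 ≤ B)
    (hBA : B ≤ A) (hG : P / k * (k + k / L - 1) ≤ k + k / L - A) :
    L / (L + 1) * ((1 - k / L) * (P / k * (k + k / L - 1)) * B /
      ((k + 1) * (k + k / L))) ≤
    L / (L + 1) * ((1 - k / L) * (k + k / L - A) * A / ((k + 1) * (k + k / L))) := by
  have hL0 : 0 < L := by linarith
  have h1 : 0 ≤ 1 - k / L := by
    rw [sub_nonneg, div_le_one hL0]
    linarith
  have h2 : 0 ≤ k / L := by positivity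
  have h3 : 0 ≤ P / k * (k + k / L - 1) :=
    mul_nonneg (div_nonneg hP (by linarith)) (by linarith)
  apply mul_le_mul_of_nonneg_left _ (by positivity)
  apply div_le_div_of_nonneg_right _ (by positivity)
  apply mul_le_mul _ hBA hB
  · apply mul_nonneg h1
    linarith
  · exact mul_le_mul_of_nonneg_left hG h1

theorem cfacts {K : ℝ} (hK : 2 ≤ K) :
    0 ≤ (K + 1) * (K ^ 2 + K - 1) / (K * (K + 2) ^ 2) ∧
      (K + 1) * (K ^ 2 + K - 1) / (K * (K + 2) ^ 2) ≤ 1 := by
  have h : 0 ≤ K ^ 2 + K - 1 := by nlinarith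
  constructor
  · positivity
  · rw [div_le_one (by positivity)]
    nlinarith

theorem cfac2 {K L : ℝ} (hK : 1 ≤ K) (hL : K + 2 ≤ L) :
    1 - 1 / K ≤ (L ^ 2 / ((L + 1) * (K + 1))) * (1 - L / (K * (L + 1))) := by
  have hK0 : 0 < K := by linarith
  have hL0 : 0 < L := by linarith
  have h12 : 1 ≤ L ^ 2 / ((L + 1) * (K + 1)) := by
    rw [one_le_div (by positivity)]
    nlinarith
  have h13 : 1 - 1 / K ≤ 1 - L / (K * (L + 1)) := by
    apply sub_le_sub_left
    rw [div_le_div_iff₀ (by positivity) hK0]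
    nlinarith
  have h14 : 0 ≤ 1 - 1 / K := by
    rw [sub_nonneg, div_le_one hK0]
    linarith
  calc 1 - 1 / K ≤ 1 - L / (K * (L + 1)) := h13
    _ = 1 * (1 - L / (K * (L + 1))) := (one_mul _).symm
    _ ≤ _ := mul_le_mul_of_nonneg_right h12 (h14.trans h13)

theorem cfac3 {K w : ℝ} (hK : 1 ≤ K) (hw : 2 ≤ w) :
    1 ≤ 1 * w * (w + 1 / 2) / K + w * (1 - 1 / K) * (1 - 1 / K) := by
  have hK0 : 0 < K := by linarith
  have e2 : 1 * w * (w + 1 / 2) / K + w * (1 - 1 / K) * (1 - 1 / K) =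
      w * (1 + (w - 3 / 2) / K + 1 / K ^ 2) := by
    field_simp
    ring
  rw [e2]
  have h16 : 0 ≤ (w - 3 / 2) / K := div_nonneg (by linarith) hK0.le
  have h17 : 0 ≤ 1 / K ^ 2 := by positivity
  nlinarith

set_option maxHeartbeats 1000000 in
theorem scal {K l p o : ℕ} {β A lam : ℝ} (hK : 1 ≤ K) (hKl : K + 1 ≤ l) (hpK : p ≤ K)
    (hJ : 1 ≤ p + o) (hJl : p + o + 1 ≤ l) (hol : K + o ≤ l) (hK2 : 1 ≤ p → 2 ≤ K)
    (hβ0 : 0 ≤ β) (hβ : β ≤ (K : ℝ) - p) (hA1 : 1 ≤ A) (hA2 : (p : ℝ) / K + β ≤ A)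
    (hG : (p : ℝ) / K * ((K : ℝ) + K / l - 1) ≤ (K : ℝ) + K / l - A)
    (hlam : 1 / (l : ℝ) + 1 / (2 * (l : ℝ) ^ 2) ≤ lam) :
    (((l : ℝ) - K) + β) / (l : ℝ) ^ 2 ≤
      lam * ((p : ℝ) / K * (((p : ℝ) - 1) * (((l : ℝ) - K) - o)) +
        (1 - (p : ℝ) / K) * ((p : ℝ) * (((l : ℝ) - K) - o) + o)) +
      (l : ℝ) / ((l : ℝ) + 1) * ((1 - (K : ℝ) / l) * ((K : ℝ) + K / l - A) * A /
        (((K : ℝ) + 1) * ((K : ℝ) + K / l))) := by
  have hk1 : (1 : ℝ) ≤ K := by exact_mod_cast hK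
  have hL1 : (K : ℝ) + 1 ≤ l := by exact_mod_cast hKl
  have hp0 : (0 : ℝ) ≤ p := Nat.cast_nonneg p
  have ho0 : (0 : ℝ) ≤ o := Nat.cast_nonneg o
  have hL0 : (0 : ℝ) < l := by linarith
  have hK0 : (0 : ℝ) < K := by linarith
  have hpK' : (p : ℝ) ≤ K := by exact_mod_cast hpK
  have hol' : (K : ℝ) + o ≤ l := by exact_mod_cast hol
  have hl1 : 1 / (l : ℝ) ≤ lam := by
    have : 0 ≤ 1 / (2 * (l : ℝ) ^ 2) := by positivity
    linarith
  have hlam0 : 0 ≤ lam := le_trans (by positivity) hl1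
  have hsq : (0 : ℝ) < (l : ℝ) ^ 2 := by positivity
  have T1 := Tge hk1 hL1 hp0 (by norm_num : (0 : ℝ) ≤ 1) hA1 hG
  have T2 := Tge hk1 hL1 hp0 (by positivity : (0 : ℝ) ≤ (p : ℝ) / K + β) hA2 hG
  have T0 := Tge hk1 hL1 hp0 le_rfl (by linarith : (0 : ℝ) ≤ A) hG
  rw [mul_zero, zero_div, mul_zero] at T0
  set T := (l : ℝ) / ((l : ℝ) + 1) * ((1 - (K : ℝ) / l) * ((K : ℝ) + K / l - A) * A /
        (((K : ℝ) + 1) * ((K : ℝ) + K / l))) with hT
  have hll : 1 / (l : ℝ) = (l : ℝ) / (l : ℝ) ^ 2 := by field_simp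
  rcases Nat.eq_zero_or_pos p with hp | hp
  · -- no light in `V_K`
    subst hp
    have ho1 : (1 : ℝ) ≤ o := by
      have : 1 ≤ o := by omega
      exact_mod_cast this
    have h1 : (((l : ℝ) - K) + β) / (l : ℝ) ^ 2 ≤ 1 / l := by
      rw [hll]
      apply div_le_div_of_nonneg_right _ hsq.le
      push_cast at hβ
      linarith
    have h2 : lam ≤ lam * o := by nlinarith
    push_cast
    simp only [zero_div, zero_mul, sub_zero, one_mul, zero_add]
    linarith
  have hK2' : 2 ≤ K := hK2 hp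
  have hK2R : (2 : ℝ) ≤ K := by exact_mod_cast hK2'
  have hp1 : (1 : ℝ) ≤ p := by exact_mod_cast hp
  rcases Nat.eq_or_lt_of_le hpK with hpe | hlt
  · -- all elements of `V_K` are lights
    subst hpe
    have hβ1 : β = 0 := le_antisymm (by linarith) hβ0
    have h3 : (1 : ℝ) ≤ ((l : ℝ) - p) - o := by
      have : (p : ℝ) + o + 1 ≤ l := by exact_mod_cast hJl
      linarith
    have h4 : (p : ℝ) / p = 1 := div_self (by linarith)
    rw [h4, hβ1]
    have h5 : (1 : ℝ) ≤ ((p : ℝ) - 1) * (((l : ℝ) - p) - o) := by nlinarith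
    have h6 : lam ≤ lam * (((p : ℝ) - 1) * (((l : ℝ) - p) - o)) := by nlinarith
    have h7 : (((l : ℝ) - p) + 0) / (l : ℝ) ^ 2 ≤ 1 / l := by
      rw [hll]
      apply div_le_div_of_nonneg_right _ hsq.le
      linarith
    simp only [sub_self, zero_mul, add_zero, one_mul] at *
    linarith
  -- the main case
  set w := (l : ℝ) - K with hw
  set q := (K : ℝ) - p with hq
  have hw1 : 1 ≤ w := by linarith
  have hq1 : 1 ≤ q := by
    have : (p : ℝ) + 1 ≤ K := by exact_mod_cast hlt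
    linarith
  have hS : q * w / K ≤ (p : ℝ) / K * (((p : ℝ) - 1) * (w - o)) +
        (1 - (p : ℝ) / K) * ((p : ℝ) * (w - o) + o) := by
    have e : (p : ℝ) / K * (((p : ℝ) - 1) * (w - o)) +
        (1 - (p : ℝ) / K) * ((p : ℝ) * (w - o) + o) - q * w / K =
        ((p : ℝ) - 1) * (w - o) := by
      rw [hq]
      field_simp
      ring
    have : 0 ≤ ((p : ℝ) - 1) * (w - o) := mul_nonneg (by linarith) (by linarith)
    linarith
  have hS' : (1 / (l : ℝ) + 1 / (2 * (l : ℝ) ^ 2)) * (q * w / K) ≤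
      lam * ((p : ℝ) / K * (((p : ℝ) - 1) * (w - o)) +
        (1 - (p : ℝ) / K) * ((p : ℝ) * (w - o) + o)) := by
    have h0 : 0 ≤ q * w / K := by positivity
    exact (mul_le_mul_of_nonneg_right hlam h0).trans (mul_le_mul_of_nonneg_left hS hlam0)
  -- the rest in units of `1 / l ^ 2`
  have hS2 : (1 / (l : ℝ) + 1 / (2 * (l : ℝ) ^ 2)) * (q * w / K) =
      (((l : ℝ) + 1 / 2) * (q * w / K)) / (l : ℝ) ^ 2 := by
    field_simp
  have goal' : w + β ≤ ((l : ℝ) + 1 / 2) * (q * w / K) + (l : ℝ) ^ 2 * T := by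
    have hlK : (l : ℝ) = K + w := by rw [hw]; ring
    have hTpos : 0 ≤ (l : ℝ) ^ 2 * T := by positivity
    have hbase : ((l : ℝ) + 1 / 2) * (q * w / K) = q * w + q * w * (w + 1 / 2) / K := by
      rw [hlK]
      field_simp
      ring
    by_cases hw2 : K + 1 = l
    · -- `w = 1`
      have hw1' : w = 1 := by
        rw [hw, ← hw2]
        push_cast
        ring
      have e : ∀ B : ℝ, (l : ℝ) ^ 2 * ((l : ℝ) / ((l : ℝ) + 1) * ((1 - (K : ℝ) / l) *
          ((p : ℝ) / K * ((K : ℝ) + K / l - 1)) * B / (((K : ℝ) + 1) * ((K : ℝ) + K / l)))) =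
          (((K : ℝ) + 1) * ((K : ℝ) ^ 2 + K - 1) / ((K : ℝ) * ((K : ℝ) + 2) ^ 2)) *
            ((p : ℝ) / K) * B := by
        intro B
        have hl' : (l : ℝ) = (K : ℝ) + 1 := by rw [← hw2]; push_cast; ring
        rw [hl']
        have h1 : (K : ℝ) + 1 + 1 = K + 2 := by ring
        have h2 : (K : ℝ) + 1 ≠ 0 := by positivity
        have h3 : (K : ℝ) + 2 ≠ 0 := by positivity
        rw [h1]
        field_simp
        ring
      have hm := mul_le_mul_of_nonneg_left T2 hsq.le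
      rw [e] at hm
      have hs := scalW1 hK2R hp1 hq1 (by rw [hq]; ring)
      set c := ((K : ℝ) + 1) * ((K : ℝ) ^ 2 + K - 1) / ((K : ℝ) * ((K : ℝ) + 2) ^ 2) with hc
      -- `c p / K ≤ 1`
      have hc0 : 0 ≤ c := (cfacts hK2R).1
      have hc1 : c ≤ 1 := (cfacts hK2R).2
      have hpk : (p : ℝ) / K ≤ 1 := by rw [div_le_one hK0]; exact hpK'
      have hpk0 : 0 ≤ (p : ℝ) / K := by positivity
      have hcp : c * ((p : ℝ) / K) ≤ 1 := by
        calc c * ((p : ℝ) / K) ≤ 1 * 1 := mul_le_mul hc1 hpk hpk0 zero_le_one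
          _ = 1 := one_mul 1
      rw [hbase, hw1']
      have h9 : q * 1 * (1 + 1 / 2) / K = 3 / 2 * (q / K) := by ring
      rw [h9]
      -- linear in `β`
      have h10 : 0 ≤ (1 - c * ((p : ℝ) / K)) * (q - β) :=
        mul_nonneg (by linarith) (by linarith)
      set X := c * ((p : ℝ) / K) with hX
      set Y := (l : ℝ) ^ 2 * T with hY
      clear_value X Y
      linarith
    · have hKl2 : K + 2 ≤ l := by omega
      have hw2' : 2 ≤ w := by
        have : (K : ℝ) + 2 ≤ l := by exact_mod_cast hKl2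
        linarith
      by_cases hq2 : p + 1 = K
      · -- `q = 1`
        have hq1' : q = 1 := by
          rw [hq, ← hq2]
          push_cast
          ring
        have hm := mul_le_mul_of_nonneg_left T1 hsq.le
        rw [hbase, hq1']
        have h11 : w * ((p : ℝ) / K) * (1 - 1 / K) ≤ (l : ℝ) ^ 2 * ((l : ℝ) / ((l : ℝ) + 1) *
            ((1 - (K : ℝ) / l) * ((p : ℝ) / K * ((K : ℝ) + K / l - 1)) * 1 /
              (((K : ℝ) + 1) * ((K : ℝ) + K / l)))) := by
          have e1 : (l : ℝ) ^ 2 * ((l : ℝ) / ((l : ℝ) + 1) *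
            ((1 - (K : ℝ) / l) * ((p : ℝ) / K * ((K : ℝ) + K / l - 1)) * 1 /
              (((K : ℝ) + 1) * ((K : ℝ) + K / l)))) =
              w * ((p : ℝ) / K) * (((l : ℝ) ^ 2 / (((l : ℝ) + 1) * ((K : ℝ) + 1))) *
                (1 - l / (K * ((l : ℝ) + 1)))) := by
            rw [hw]
            field_simp
          rw [e1]
          apply mul_le_mul_of_nonneg_left _ (by positivity)
          exact cfac2 hk1 (by linarith)
        have hpk : (p : ℝ) / K = 1 - 1 / K := by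
          have : (p : ℝ) = K - 1 := by rw [← hq2]; push_cast; ring
          rw [this]
          field_simp
        have h22 := h11.trans hm
        rw [hpk] at h22
        have h15 := cfac3 hk1 hw2'
        have hβ1 : β ≤ 1 := by linarith
        set Y := (l : ℝ) ^ 2 * T with hY
        clear_value Y
        clear hm h11 T1 T2 hG hA2 hlam hS' hS2 hbase hS hpk
        linarith
      · -- `q ≥ 2`
        have hq2' : 2 ≤ q := by
          have h18 : p + 2 ≤ K := by omega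
          have : (p : ℝ) + 2 ≤ K := by exact_mod_cast h18
          linarith
        rw [hbase]
        have h19 : 0 ≤ q * w * (w + 1 / 2) / K := by positivity
        have h21 : 0 ≤ (q - 2) * (w - 2) := mul_nonneg (by linarith) (by linarith)
        linarith
  have h20 : (w + β) / (l : ℝ) ^ 2 ≤
      (((l : ℝ) + 1 / 2) * (q * w / K)) / (l : ℝ) ^ 2 + T := by
    rw [div_le_iff₀ hsq, add_mul, div_mul_cancel₀ _ hsq.ne']
    linarith
  linarith

end J0

end R5
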