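import Pool.Agent.Work.MP_8b6acb_j0_helper3.SLP
import Pool.Agent.Work.MP_8b6acb_j0_helper3.SCAL

/-!
# The inequality at a vertex `V_K`, and its average (helper3)
-/

namespace R5

namespace J0

open Finset T7 Two COSTB

variable {α : Type} [DecidableEq α]

/-- the lower bound of the surplus minus the cost on the paths with last vertex `V`, as a function
of the prefix order -/
noncomputable def FF (τ : Finset α → Lab) (D V : Finset α) (π : List α) : ℝ :=
  lamn D.card * (lt1 τ π * ((((LV τ V).card : ℝ) - 1) * (((D.card : ℝ) - V.card) -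
      (LV τ (D \ V)).card)) +
    (1 - lt1 τ π) * (((LV τ V).card : ℝ) * (((D.card : ℝ) - V.card) - (LV τ (D \ V)).card) +
      (LV τ (D \ V)).card)) -
  (((D.card : ℝ) - V.card) + bx τ π) / (D.card : ℝ) ^ 2

theorem Av_FF {τ : Finset α → Lab} {D V : Finset α} (hne : V.Nonempty) :
    Av V (FF τ D V) = lamn D.card * (((LV τ V).card : ℝ) / V.card *
      ((((LV τ V).card : ℝ) - 1) * (((D.card : ℝ) - V.card) - (LV τ (D \ V)).card)) +
      (1 - ((LV τ V).card : ℝ) / V.card) * (((LV τ V).card : ℝ) *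
        (((D.card : ℝ) - V.card) - (LV τ (D \ V)).card) + (LV τ (D \ V)).card)) -
      (((D.card : ℝ) - V.card) + Av V (bx τ)) / (D.card : ℝ) ^ 2 := by
  rw [← Av_lt1 hne]
  set P := (((LV τ V).card : ℝ) - 1) * (((D.card : ℝ) - V.card) - (LV τ (D \ V)).card)
  set Q := ((LV τ V).card : ℝ) * (((D.card : ℝ) - V.card) - (LV τ (D \ V)).card) +
      (LV τ (D \ V)).card
  have e : ∀ π ∈ seqs V.card V, FF τ D V π = lamn D.card * (P - Q) * lt1 τ π -
      bx τ π / (D.card : ℝ) ^ 2 + (lamn D.card * Q - ((D.card : ℝ) - V.card) /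
        (D.card : ℝ) ^ 2) := by
    intro π _
    unfold FF
    ring
  rw [Av_congr e, Av_add, Av_sub, Av_mul, Av_div, Av_const]
  change lamn D.card * (P - Q) * Av V (lt1 τ) - Av V (bx τ) / (D.card : ℝ) ^ 2 + _ = _
  ring

theorem LV_add {τ : Finset α → Lab} {D V : Finset α} (hV : V ⊆ D) :
    (LV τ V).card + (LV τ (D \ V)).card = (LV τ D).card := by
  rw [← card_union_of_disjoint]
  · congr 1
    unfold LV
    rw [← filter_union, union_sdiff_of_subset hV]
  · unfold LV
    exact disjoint_filter_filter (disjoint_sdiff)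

/-- **the inequality at a vertex** -/
theorem perV {τ : Finset α → Lab} {D V : Finset α} (h0 : τ ∅ = Lab.A) (hD : τ D = Lab.B)
    (hV : V ⊆ D) (hX : τ V = Lab.X) (hJ : 1 ≤ (LV τ D).card)
    (hJl : (LV τ D).card + 1 ≤ D.card) :
    0 ≤ Av V (FF τ D V) + (D.card : ℝ) / ((D.card : ℝ) + 1) *
      ((1 - (V.card : ℝ) / D.card) * ((V.card : ℝ) + (V.card : ℝ) / D.card - C1.AN τ D V) *
        C1.AN τ D V / (((V.card : ℝ) + 1) * ((V.card : ℝ) + (V.card : ℝ) / D.card))) := by
  have hne : V.Nonempty := by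
    rw [nonempty_iff_ne_empty]
    rintro rfl
    rw [h0] at hX
    exact absurd hX (by decide)
  have hVA : τ V ≠ Lab.A := by rw [hX]; decide
  have hVD : V ≠ D := by
    rintro rfl
    rw [hD] at hX
    exact absurd hX (by decide)
  have hK : 1 ≤ V.card := card_pos.2 hne
  have hKl : V.card + 1 ≤ D.card := card_lt_card (hV.ssubset_of_ne hVD)
  have hp : (LV τ V).card ≤ V.card := card_le_card (filter_subset _ _)
  have ho : V.card + (LV τ (D \ V)).card ≤ D.card := by
    have h1 : (LV τ (D \ V)).card ≤ (D \ V).card := card_le_card (filter_subset _ _)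
    rw [card_sdiff_of_subset hV] at h1
    omega
  have hadd := LV_add (τ := τ) hV
  have hK2 : 1 ≤ (LV τ V).card → 2 ≤ V.card := by
    intro h
    by_contra hc
    have h1 : V.card = 1 := by omega
    obtain ⟨x, rfl⟩ := card_eq_one.1 h1
    obtain ⟨y, hy⟩ := card_pos.1 (show 0 < (LV τ {x}).card by omega)
    unfold LV at hy
    rw [mem_filter, mem_singleton] at hy
    rw [hy.1, hX] at hy
    exact absurd hy.2 (by decide)
  have h := scal (β := Av V (bx τ)) (A := C1.AN τ D V) (lam := lamn D.card) hK hKl hp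
    (by omega : 1 ≤ (LV τ V).card + (LV τ (D \ V)).card) (by omega) ho hK2
    (Av_nonneg fun π _ => bx_nonneg τ π) (bx_sum_le h0 hVA hne) (AN_ge_one h0 hVA)
    (AN_ge h0 hVA hne) (AN_gap h0 hVA hne) (lam_lb (by omega))
  rw [Av_FF hne]
  linarith

/-- **the average of the inequality at the last vertex** -/
theorem sumV {τ : Finset α → Lab} {D : Finset α} (h0 : τ ∅ = Lab.A) (hD : τ D = Lab.B)
    (hJ : 1 ≤ (LV τ D).card) (hJl : (LV τ D).card + 1 ≤ D.card) :
    0 ≤ Av D (fun π => lx τ π * FF τ D (pre π (kN τ π)) (π.take (kN τ π))) +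
      (D.card : ℝ) / ((D.card : ℝ) + 1) * C1.SL τ D := by
  rw [CE h0 hD (FF τ D)]
  unfold C1.SL
  rw [mul_sum, ← sum_add_distrib]
  refine sum_nonneg fun V hV => ?_
  rw [mem_powerset] at hV
  by_cases hX : τ V = Lab.X
  · rw [if_pos hX, if_pos hX]
    have h := perV h0 hD hV hX hJ hJl
    have hb : 0 ≤ bwb τ D V / (D.card.choose V.card : ℝ) :=
      div_nonneg (bwb_nonneg _ _ _) (Nat.cast_nonneg _)
    have := mul_nonneg hb h
    linarith
  · rw [if_neg hX, if_neg hX]
    simp

end J0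

end R5
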