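import Pool.Agent.Work.MP_8b6acb_j0_helper3.CE
import Pool.Agent.Work.MP_8b6acb_ti_helper76.CostPath
import Pool.Agent.Work.MP_8b6acb_cost_helper3.CostV

/-!
# The slack of the cut vertices: path form of `AN` (helper3)
-/

namespace R5

namespace J0

open Finset T7 Two COSTB

variable {α : Type} [DecidableEq α]

/-- `(k + 1) [the first exit is a vertex]` -/
noncomputable def bx (τ : Finset α → Lab) (π : List α) : ℝ :=
  if τ (pre π (kA τ π + 1)) = Lab.X then (kA τ π : ℝ) + 1 else 0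

/-- the first element is a light -/
noncomputable def lt1 (τ : Finset α → Lab) (π : List α) : ℝ :=
  if τ (pre π 1) = Lab.B then 1 else 0

/-- the lights of `V` -/
def LV (τ : Finset α → Lab) (V : Finset α) : Finset α := V.filter (fun x => τ {x} = Lab.B)

theorem aw_path {τ : Finset α → Lab} {V : Finset α} (h0 : τ ∅ = Lab.A) (hV : τ V ≠ Lab.A) :
    aw τ V = Av V (fun π => (kA τ π : ℝ) + 1) := by
  have e1 : Av V (fun π => (kA τ π : ℝ) + 1) =
      Av V (fun π => ∑ j ∈ range (V.card + 1), if allA τ π j then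
        (fun (_ : Finset α) (_ : List α) => (1 : ℝ)) (pre π j) (π.drop j) else 0) := by
    refine Av_congr fun π hπ => ?_
    have hk := kA_lt h0 hV hπ
    have h1 := sum_iA h0 hV hπ (j := V.card + 1) (by omega) (fun _ => (1 : ℝ))
    rw [sum_const, card_range, nsmul_eq_mul, mul_one] at h1
    push_cast at h1
    rw [← h1]
    refine sum_congr rfl fun j _ => ?_
    unfold iA
    rw [mul_one]
  rw [e1, Av_sum]
  unfold aw
  rw [sum_powerset]
  refine sum_congr rfl fun j hj => ?_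
  rw [mem_range] at hj
  rw [← chain_A τ (by omega : j ≤ V.card) (fun (_ : Finset α) (_ : List α) => (1 : ℝ))]
  refine sum_congr rfl fun X hX => ?_
  obtain ⟨-, hc⟩ := mem_powersetCard.1 hX
  rw [hc, Av_const, mul_one]

theorem AW_path {τ : Finset α → Lab} {V : Finset α} (h0 : τ ∅ = Lab.A) (hV : τ V ≠ Lab.A) :
    AW (xw τ) V = Av V (bx τ) := by
  rw [← C1.NV_eq, C1.NV_NL, NL_eq]
  refine Av_congr fun π hπ => ?_
  rw [sum_exL h0 hV hπ (by decide)]
  rfl

theorem AN_path {τ : Finset α → Lab} {D V : Finset α} (h0 : τ ∅ = Lab.A) (hV : τ V ≠ Lab.A) :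
    C1.AN τ D V = Av V (fun π => (kA τ π : ℝ) + 1 + bx τ π / (D.card : ℝ)) := by
  unfold C1.AN
  rw [A1_eq, aw_path h0 hV, AW_path h0 hV, ← Av_div, ← Av_add]

theorem Av_lt1 {τ : Finset α → Lab} {V : Finset α} (hV : V.Nonempty) :
    Av V (lt1 τ) = ((LV τ V).card : ℝ) / V.card := by
  rw [Av_cons hV]
  congr 1
  unfold LV
  rw [card_filter]
  push_cast
  refine sum_congr rfl fun x _ => ?_
  have : ∀ π : List α, lt1 τ (x :: π) = if τ {x} = Lab.B then 1 else 0 := by
    intro π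
    unfold lt1
    rw [pre_cons_succ, pre_zero]
    rfl
  rw [Av_congr fun π _ => this π, Av_const]

section path

variable {τ : Finset α → Lab} {V : Finset α} {π : List α}

theorem bx_nonneg (τ : Finset α → Lab) (π : List α) : 0 ≤ bx τ π := by
  unfold bx
  split_ifs
  · positivity
  · exact le_rfl

theorem bx_le (τ : Finset α → Lab) (π : List α) : bx τ π ≤ (kA τ π : ℝ) + 1 := by
  unfold bx
  split_ifs
  · exact le_rfl
  · positivity

theorem lt1_cases (τ : Finset α → Lab) (π : List α) : lt1 τ π = 0 ∨ lt1 τ π = 1 := by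
  unfold lt1
  split_ifs
  · exact Or.inr rfl
  · exact Or.inl rfl

theorem lt1_kA (h0 : τ ∅ = Lab.A) (hV : τ V ≠ Lab.A) (hπ : π ∈ seqs V.card V)
    (h : lt1 τ π = 1) : kA τ π = 0 ∧ bx τ π = 0 := by
  have h1 : τ (pre π 1) = Lab.B := by
    unfold lt1 at h
    by_contra hc
    rw [if_neg hc] at h
    exact zero_ne_one h
  have h2 : kA τ π = 0 := by
    by_contra hc
    have h3 : allA τ π 1 := (allA_iff h0 hV hπ 1).2 (by omega)
    have h4 := h3 1 (by simp)
    rw [h1] at h4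
    exact absurd h4 (by decide)
  refine ⟨h2, ?_⟩
  unfold bx
  rw [h2, if_neg]
  rw [h1]
  decide

end path

/-- `A ≥ 1` -/
theorem AN_ge_one {τ : Finset α → Lab} {D V : Finset α} (h0 : τ ∅ = Lab.A) (hV : τ V ≠ Lab.A) :
    1 ≤ C1.AN τ D V := by
  rw [AN_path h0 hV]
  refine le_trans (le_of_eq (Av_const V 1).symm) (Av_mono fun π _ => ?_)
  have h1 : (0 : ℝ) ≤ kA τ π := Nat.cast_nonneg _
  have h2 : 0 ≤ bx τ π / (D.card : ℝ) := div_nonneg (bx_nonneg τ π) (Nat.cast_nonneg _)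
  linarith

/-- `A ≥ p / K + β` -/
theorem AN_ge {τ : Finset α → Lab} {D V : Finset α} (h0 : τ ∅ = Lab.A) (hV : τ V ≠ Lab.A)
    (hne : V.Nonempty) :
    ((LV τ V).card : ℝ) / V.card + Av V (bx τ) ≤ C1.AN τ D V := by
  rw [AN_path h0 hV, ← Av_lt1 hne, ← Av_add]
  refine Av_mono fun π hπ => ?_
  have h1 : (0 : ℝ) ≤ kA τ π := Nat.cast_nonneg _
  have h2 : 0 ≤ bx τ π / (D.card : ℝ) := div_nonneg (bx_nonneg τ π) (Nat.cast_nonneg _)
  rcases lt1_cases τ π with h | h
  · rw [h]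
    have := bx_le τ π
    linarith
  · obtain ⟨-, h4⟩ := lt1_kA h0 hV hπ h
    rw [h, h4]
    simp only [zero_div]
    linarith

/-- `β ≤ q` -/
theorem bx_sum_le {τ : Finset α → Lab} {V : Finset α} (h0 : τ ∅ = Lab.A) (hV : τ V ≠ Lab.A)
    (hne : V.Nonempty) :
    Av V (bx τ) ≤ (V.card : ℝ) - (LV τ V).card := by
  have hc : (0 : ℝ) < V.card := by exact_mod_cast card_pos.2 hne
  have e : (V.card : ℝ) - (LV τ V).card = Av V (fun π => (V.card : ℝ) - V.card * lt1 τ π) := by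
    rw [Av_sub, Av_const, Av_mul]
    change _ = (V.card : ℝ) - V.card * Av V (lt1 τ)
    rw [Av_lt1 hne]
    field_simp
  rw [e]
  refine Av_mono fun π hπ => ?_
  rcases lt1_cases τ π with h | h
  · rw [h]
    have h1 := bx_le τ π
    have h2 := kA_lt h0 hV hπ
    have h3 : (kA τ π : ℝ) + 1 ≤ V.card := by exact_mod_cast h2
    linarith
  · obtain ⟨-, h4⟩ := lt1_kA h0 hV hπ h
    rw [h, h4]
    linarith

/-- `a_V - A ≥ (p / K) (a_V - 1)` -/
theorem AN_gap {τ : Finset α → Lab} {D V : Finset α} (h0 : τ ∅ = Lab.A) (hV : τ V ≠ Lab.A)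
    (hne : V.Nonempty) :
    ((LV τ V).card : ℝ) / V.card * ((V.card : ℝ) + (V.card : ℝ) / D.card - 1) ≤
      (V.card : ℝ) + (V.card : ℝ) / D.card - C1.AN τ D V := by
  have hl : (0 : ℝ) ≤ D.card := Nat.cast_nonneg _
  have e : (V.card : ℝ) + (V.card : ℝ) / D.card - C1.AN τ D V =
      Av V (fun π => (V.card : ℝ) + (V.card : ℝ) / D.card -
        ((kA τ π : ℝ) + 1 + bx τ π / (D.card : ℝ))) := by
    rw [AN_path h0 hV, Av_sub, Av_const]
  rw [e, ← Av_lt1 hne, ← Av_mul_right]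
  refine Av_mono fun π hπ => ?_
  have h2 := kA_lt h0 hV hπ
  have h3 : (kA τ π : ℝ) + 1 ≤ V.card := by exact_mod_cast h2
  rcases lt1_cases τ π with h | h
  · rw [h, zero_mul]
    have h1 := bx_le τ π
    have h4 : bx τ π / (D.card : ℝ) ≤ (V.card : ℝ) / D.card :=
      div_le_div_of_nonneg_right (h1.trans h3) hl
    linarith
  · obtain ⟨h5, h4⟩ := lt1_kA h0 hV hπ h
    rw [h, h4, h5]
    simp

end J0

end R5
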