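import Pool.Agent.Work.MP_8b6acb_j0_helper3.J0

/-!
# The typewise inequality for the set kernel (assembly of all pieces)
-/

namespace R5

namespace J0

open Finset T7 Two

theorem stmt_StateK (α : Type) [DecidableEq α] : Stmt_StateK α :=
  fun τ D ρ _ _ hρ => K.StateK_of τ D ρ hρ

theorem stmt_CostV (α : Type) [DecidableEq α] : Stmt_CostV α := by
  intro τ D _ h0 hD
  have hne : D.Nonempty := by
    by_contra h
    rw [not_nonempty_iff_eq_empty] at h
    subst h
    rw [h0] at hD
    exact absurd hD (by decide)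
  have h1 := (C1.cost1_bound τ D h0 hD hne).2
  have h2 := C1.SL_nonneg (τ := τ) h0 hne
  rw [C1.NV_NL, C1.NV_NL] at h1
  have h3 : 0 ≤ (D.card : ℝ) / ((D.card : ℝ) + 1) * C1.SL τ D := by positivity
  linarith

/-- **the typewise inequality for the set kernel** -/
theorem TIS (α : Type) [DecidableEq α] {l q : ℕ} (hl : 2 ≤ l) (hql : q ≤ l) :
    K.Stmt_TIS α l q :=
  TIS_of α (stmt_StateK α) (stmt_CostV α) (stmt_J0 α) hl hql

end J0

end R5

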